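import Mathlib

namespace Pool.Agent.H.MP_a90892_an

open Set Filter Topology

set_option maxHeartbeats 400000

variable {X : Type*} [AddCommGroup X] [Module ℝ X] [TopologicalSpace X] [IsTopologicalAddGroup X]
  [ContinuousSMul ℝ X]

theorem semi [LocallyConvexSpace ℝ X] {V : Set X} (hV : V ∈ 𝓝 (0:X)) :
    ∃ q : Seminorm ℝ X, Continuous q ∧ ∃ r > 0, ∀ z, q z < r → z ∈ V := by
  have hw := with_gaugeSeminormFamily (𝕜 := ℝ) (E := X)
  obtain ⟨s, r, hr, h⟩ := (hw.mem_nhds_iff 0 V).1 hV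
  refine ⟨_, Seminorm.continuous_finsetSup (s := s) fun i _ => hw.continuous_seminorm i, r, hr,
    fun z hz => h ?_⟩
  rwa [Seminorm.mem_ball_zero]

omit [TopologicalSpace X] [IsTopologicalAddGroup X] [ContinuousSMul ℝ X] in
theorem hull {ι : Type*} (s : Finset ι) (x : ι → X) {c : X} (hc : c ∈ convexHull ℝ (x '' s)) :
    ∃ t : ι → ℝ, (∀ i ∈ s, 0 ≤ t i) ∧ ∑ i ∈ s, t i = 1 ∧ c = ∑ i ∈ s, t i • x i := by
  classical
  refine convexHull_min (t := {c | ∃ t : ι → ℝ, (∀ i ∈ s, 0 ≤ t i) ∧ ∑ i ∈ s, t i = 1 ∧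
    c = ∑ i ∈ s, t i • x i}) ?_ ?_ hc
  · rintro _ ⟨k, hk, rfl⟩
    have hk : k ∈ s := hk
    refine ⟨fun i => if i = k then 1 else 0, fun i _ => by dsimp only; split_ifs <;> norm_num, ?_, ?_⟩
    · simp [hk]
    · simp [ite_smul, hk]
  · rintro _ ⟨t, t1, t2, rfl⟩ _ ⟨u, u1, u2, rfl⟩ a b ha hb hab
    refine ⟨fun i => a * t i + b * u i, fun i hi => ?_, ?_, ?_⟩
    · have := t1 i hi; have := u1 i hi; positivity
    · rw [Finset.sum_add_distrib, ← Finset.mul_sum, ← Finset.mul_sum, t2, u2]; linarith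
    · simp only [add_smul, mul_smul, Finset.sum_add_distrib, Finset.smul_sum]

theorem key [LocallyConvexSpace ℝ X] {ι : Type*} (f : X →L[ℝ] X) (l : ℕ) (A : Set (Set ℕ))
    (hA : ∀ a ∈ A, ∀ b, a ⊆ b → b ∈ A) (hu : univ ∈ A)
    (H : ∀ s : Finset ι, s.Nonempty → ∀ x : ι → X, ∀ q : Seminorm ℝ X, Continuous q → ∀ δ > 0,
      {n | ∀ i ∈ s, ∃ y, q (y - x i) < δ ∧ ∀ j ≤ l, ∃ c ∈ convexHull ℝ (x '' s),
        q ((f ^ (j * n)) y - c) < δ} ∈ A)
    (s : Finset ι) : ∀ U : ι → Set X, (∀ i ∈ s, IsOpen (U i) ∧ (U i).Nonempty) →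
      {n | ∀ i ∈ s, ∃ y, ∀ j ≤ l, (f ^ (j * n)) y ∈ U i} ∈ A := by
  classical
  induction s using Finset.strongInduction with
  | H s ih =>
  intro U hU
  rcases s.eq_empty_or_nonempty with rfl | hs
  · exact hA _ hu _ fun n _ => by simp
  by_cases hG : ∃ k ∈ s, ∃ φ : ι → X →L[ℝ] X, (∀ i, Commute (φ i) f) ∧ ∃ y : ι → X,
      (∀ i ∈ s, y i ∈ U i) ∧ ∑ i ∈ s.erase k, φ i (y i) ∈ U k
  · obtain ⟨k, hk, φ, hφ, y, hy, hsum⟩ := hG
    have hc : Continuous fun z : ι → X => ∑ i ∈ s.erase k, φ i (z i) := by fun_prop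
    have h1 := hc.continuousAt.preimage_mem_nhds ((hU k hk).1.mem_nhds hsum)
    rw [nhds_pi, Filter.mem_pi] at h1
    obtain ⟨I, -, t, ht, hsub⟩ := h1
    refine hA _ (ih (s.erase k) (Finset.erase_ssubset hk) (fun i => U i ∩ interior (t i))
      fun i hi => ⟨(hU i (Finset.mem_of_mem_erase hi)).1.inter isOpen_interior,
        y i, hy i (Finset.mem_of_mem_erase hi), mem_interior_iff_mem_nhds.2 (ht i)⟩) _ ?_
    intro n hn
    choose! w hw using hn
    intro i hi
    by_cases hik : i = k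
    · subst hik
      refine ⟨∑ a ∈ s.erase i, φ a (w a), fun j hj => ?_⟩
      have h2 := hsub (a := fun a => if a ∈ s.erase i then (f ^ (j * n)) (w a) else y a)
        (fun a _ => by
          by_cases ha : a ∈ s.erase i
          · simp only [if_pos ha]; exact interior_subset (hw a ha j hj).2
          · simp only [if_neg ha]; exact mem_of_mem_nhds (ht a))
      rw [mem_preimage] at h2
      rw [map_sum]
      convert h2 using 1
      refine Finset.sum_congr rfl fun a ha => ?_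
      simp only [if_pos ha]
      exact congrArg (fun g : X →L[ℝ] X => g (w a)) ((hφ a).pow_right (j * n)).eq.symm
    · obtain h := hw i (Finset.mem_erase.2 ⟨hik, hi⟩)
      exact ⟨w i, fun j hj => (h j hj).1⟩
  push Not at hG
  choose! x hx using fun i hi => (hU i hi).2
  have hV : (⋂ i ∈ s, (fun z => x i + z) ⁻¹' U i) ∈ 𝓝 (0:X) := by
    refine (Filter.biInter_finset_mem s).2 fun i hi => ?_
    refine (continuous_const.add continuous_id).continuousAt.preimage_mem_nhds ?_
    simpa using (hU i hi).1.mem_nhds (hx i hi)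
  obtain ⟨q, hq, r, hr, hqr⟩ := semi hV
  have hin : ∀ i ∈ s, ∀ z, q (z - x i) < r → z ∈ U i := fun i hi z hz => by
    simpa using mem_iInter₂.1 (hqr _ hz) i hi
  set B : ℝ := ∑ a ∈ s, ∑ k ∈ s, q (x k - x a) with hB
  have hB0 : 0 ≤ B := Finset.sum_nonneg fun _ _ => Finset.sum_nonneg fun _ _ => apply_nonneg _ _
  obtain ⟨η, η0, η1, η2⟩ : ∃ η : ℝ, 0 < η ∧ η ≤ 1 ∧ η * B ≤ r / 2 := by
    refine ⟨min 1 (r / 2 / (B + 1)), by positivity, min_le_left _ _, ?_⟩
    have h1 : min 1 (r / 2 / (B + 1)) * (B + 1) ≤ r / 2 :=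
      (le_div_iff₀ (by positivity)).1 (min_le_right _ _)
    have h2 : 0 < min 1 (r / 2 / (B + 1)) := by positivity
    nlinarith
  refine hA _ (H s hs x q hq (η * r / 2) (by positivity)) _ fun n hn => ?_
  choose! y hy1 hy2 using hn
  have hδ : η * r / 2 ≤ r / 2 := by nlinarith
  intro a ha
  refine ⟨y a, fun j hj => ?_⟩
  obtain ⟨c, hc, hq1⟩ := hy2 a ha j hj
  obtain ⟨t, t1, t2, rfl⟩ := hull s x hc
  set z := (f ^ (j * n)) (y a) with hz
  have hsmall : ∀ k ∈ s, k ≠ a → t k < η := by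
    intro k hk hka
    by_contra hcon
    have hcon : η ≤ t k := not_lt.1 hcon
    have tk : 0 < t k := η0.trans_le hcon
    refine hG k hk (fun i => (t k)⁻¹ • ((if i = a then f ^ (j * n) else 0) - t i • 1))
      (fun i => ?_) y (fun i hi => hin i hi _ (by linarith [hy1 i hi])) (hin k hk _ ?_)
    · refine Commute.smul_left (Commute.sub_left ?_ ((Commute.one_left f).smul_left _)) _
      split_ifs
      · exact (Commute.refl f).pow_left _
      · exact Commute.zero_left f
    · have e1 : ∑ i ∈ s.erase k, ((t k)⁻¹ • ((if i = a then f ^ (j * n) else 0) -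
          t i • (1 : X →L[ℝ] X))) (y i) = (t k)⁻¹ • (z - ∑ i ∈ s.erase k, t i • y i) := by
        simp only [_root_.smul_apply, _root_.sub_apply, one_apply_eq_self]
        rw [← Finset.smul_sum, Finset.sum_sub_distrib, Finset.sum_eq_single_of_mem a
          (Finset.mem_erase.2 ⟨hka.symm, ha⟩) fun b _ hb => by simp [hb]]
        simp [hz]
      have e2 : (t k)⁻¹ • (z - ∑ i ∈ s.erase k, t i • y i) - x k = (t k)⁻¹ •
          ((z - ∑ i ∈ s, t i • x i) - ∑ i ∈ s.erase k, t i • (y i - x i)) := by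
        rw [← Finset.add_sum_erase s _ hk]
        simp only [smul_sub, Finset.sum_sub_distrib, smul_add, smul_smul, inv_mul_cancel₀ tk.ne',
          one_smul]
        abel
      rw [e1, e2, map_smul_eq_mul, Real.norm_eq_abs, abs_of_pos (inv_pos.2 tk),
        inv_mul_lt_iff₀ tk]
      have h3 : q (∑ i ∈ s.erase k, t i • (y i - x i)) ≤ η * r / 2 := by
        refine (Finset.le_sum_of_subadditive q (map_zero q).le (map_add_le_add q) _ _).trans ?_
        calc _ ≤ ∑ i ∈ s.erase k, t i * (η * r / 2) := Finset.sum_le_sum fun i hi => by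
                have hi := Finset.mem_of_mem_erase hi
                rw [map_smul_eq_mul, Real.norm_eq_abs, abs_of_nonneg (t1 i hi)]
                exact mul_le_mul_of_nonneg_left (hy1 i hi).le (t1 i hi)
          _ ≤ ∑ i ∈ s, t i * (η * r / 2) :=
              Finset.sum_le_sum_of_subset_of_nonneg (Finset.erase_subset _ _)
                fun i hi _ => mul_nonneg (t1 i hi) (by positivity)
          _ = _ := by rw [← Finset.sum_mul, t2, one_mul]
      have h4 := map_sub_le_add q (z - ∑ i ∈ s, t i • x i) (∑ i ∈ s.erase k, t i • (y i - x i))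
      nlinarith
  refine hin a ha _ ?_
  have e3 : z - x a = (z - ∑ i ∈ s, t i • x i) + ∑ i ∈ s, t i • (x i - x a) := by
    simp only [smul_sub, Finset.sum_sub_distrib, ← Finset.sum_smul, t2, one_smul]; abel
  have h5 : q (∑ i ∈ s, t i • (x i - x a)) ≤ η * B := by
    refine (Finset.le_sum_of_subadditive q (map_zero q).le (map_add_le_add q) _ _).trans ?_
    calc _ ≤ ∑ i ∈ s, η * q (x i - x a) := Finset.sum_le_sum fun i hi => by
            rw [map_smul_eq_mul, Real.norm_eq_abs, abs_of_nonneg (t1 i hi)]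
            by_cases h : i = a
            · simp [h]
            · exact mul_le_mul_of_nonneg_right (hsmall i hi h).le (apply_nonneg _ _)
      _ ≤ _ := by
          rw [← Finset.mul_sum]
          exact mul_le_mul_of_nonneg_left (Finset.single_le_sum
            (f := fun a => ∑ k ∈ s, q (x k - x a))
            (fun _ _ => Finset.sum_nonneg fun _ _ => apply_nonneg _ _) ha) η0.le
  have h6 := map_add_le_add q (z - ∑ i ∈ s, t i • x i) (∑ i ∈ s, t i • (x i - x a))
  rw [e3]; linarith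

end Pool.Agent.H.MP_a90892_an
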